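import Mathlib

namespace Pool.Agent.Lib.MP_ccf7f2_nt

open Nat Finset

lemma ediv_bounds (q e : ℤ) (hq : 0 < q) : q * (e / q) ≤ e ∧ e < q * (e / q) + q := by
  have h1 := Int.mul_ediv_add_emod e q
  have h2 := Int.emod_nonneg e hq.ne'
  have h3 := Int.emod_lt_of_pos e hq
  constructor <;> linarith

lemma ediv_shift (q a r : ℤ) (hq : 0 < q) : (q * a + r) / q = a + r / q := by
  rw [Int.add_comm, Int.add_mul_ediv_left _ _ hq.ne', Int.add_comm]

/-- floor inequality used for the first family of terms (reduced residues) -/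
lemma floorU_aux (q r s : ℤ) (hr0 : 0 ≤ r) (hr : r < q) (hs0 : 0 ≤ s) (hs : s < q) :
    (2 * r) / q + (r - s) / q + (r - s - 1) / q + (r - 2 * s) / q + (3 * s) / q ≤
      (3 * r) / q + (2 * (r - s) - 1) / q := by
  have hq : 0 < q := by omega
  obtain ⟨a1, a2⟩ := ediv_bounds q (2 * r) hq
  obtain ⟨b1, b2⟩ := ediv_bounds q (r - s) hq
  obtain ⟨c1, c2⟩ := ediv_bounds q (r - s - 1) hq
  obtain ⟨d1, d2⟩ := ediv_bounds q (r - 2 * s) hq
  obtain ⟨e1, e2⟩ := ediv_bounds q (3 * s) hq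
  obtain ⟨f1, f2⟩ := ediv_bounds q (3 * r) hq
  obtain ⟨g1, g2⟩ := ediv_bounds q (2 * (r - s) - 1) hq
  generalize (2 * r) / q = A at *
  generalize (r - s) / q = B at *
  generalize (r - s - 1) / q = C at *
  generalize (r - 2 * s) / q = D at *
  generalize (3 * s) / q = E at *
  generalize (3 * r) / q = F at *
  generalize (2 * (r - s) - 1) / q = G at *
  have hA : 0 ≤ A ∧ A ≤ 1 := by constructor <;> nlinarith
  have hB : -1 ≤ B ∧ B ≤ 0 := by constructor <;> nlinarith
  have hC : -1 ≤ C ∧ C ≤ 0 := by constructor <;> nlinarith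
  have hD : -2 ≤ D ∧ D ≤ 0 := by constructor <;> nlinarith
  have hE : 0 ≤ E ∧ E ≤ 2 := by constructor <;> nlinarith
  have hF : 0 ≤ F ∧ F ≤ 2 := by constructor <;> nlinarith
  have hG : -2 ≤ G ∧ G ≤ 1 := by constructor <;> nlinarith
  obtain ⟨hA0, hA1⟩ := hA
  obtain ⟨hB0, hB1⟩ := hB
  obtain ⟨hC0, hC1⟩ := hC
  obtain ⟨hD0, hD1⟩ := hD
  obtain ⟨hE0, hE1⟩ := hE
  obtain ⟨hF0, hF1⟩ := hF
  obtain ⟨hG0, hG1⟩ := hG
  interval_cases B <;> interval_cases C <;> try omega
  all_goals interval_cases A <;> interval_cases D <;> try omega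
  all_goals interval_cases E <;> interval_cases F <;> try omega
  all_goals interval_cases G <;> omega

/-- floor inequality used for the second family of terms (reduced residues) -/
lemma floorV_aux (q r s : ℤ) (hr0 : 0 ≤ r) (hr : r < q) (hs0 : 0 ≤ s) (hs : s < q) :
    (2 * r) / q + 2 * ((r - s - 1) / q) + (r - 2 * s - 1) / q + (3 * s + 1) / q ≤
      (3 * r) / q + (2 * (r - s - 1)) / q := by
  have hq : 0 < q := by omega
  obtain ⟨a1, a2⟩ := ediv_bounds q (2 * r) hq
  obtain ⟨c1, c2⟩ := ediv_bounds q (r - s - 1) hq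
  obtain ⟨d1, d2⟩ := ediv_bounds q (r - 2 * s - 1) hq
  obtain ⟨e1, e2⟩ := ediv_bounds q (3 * s + 1) hq
  obtain ⟨f1, f2⟩ := ediv_bounds q (3 * r) hq
  obtain ⟨g1, g2⟩ := ediv_bounds q (2 * (r - s - 1)) hq
  generalize (2 * r) / q = A at *
  generalize (r - s - 1) / q = C at *
  generalize (r - 2 * s - 1) / q = D at *
  generalize (3 * s + 1) / q = E at *
  generalize (3 * r) / q = F at *
  generalize (2 * (r - s - 1)) / q = G at *
  have hA : 0 ≤ A ∧ A ≤ 1 := by constructor <;> nlinarith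
  have hC : -1 ≤ C ∧ C ≤ 0 := by constructor <;> nlinarith
  have hD : -2 ≤ D ∧ D ≤ 0 := by constructor <;> nlinarith
  have hE : 0 ≤ E ∧ E ≤ 2 := by constructor <;> nlinarith
  have hF : 0 ≤ F ∧ F ≤ 2 := by constructor <;> nlinarith
  have hG : -2 ≤ G ∧ G ≤ 1 := by constructor <;> nlinarith
  obtain ⟨hA0, hA1⟩ := hA
  obtain ⟨hC0, hC1⟩ := hC
  obtain ⟨hD0, hD1⟩ := hD
  obtain ⟨hE0, hE1⟩ := hE
  obtain ⟨hF0, hF1⟩ := hF
  obtain ⟨hG0, hG1⟩ := hG
  interval_cases C <;> interval_cases A <;> try omega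
  all_goals interval_cases D <;> interval_cases E <;> try omega
  all_goals interval_cases F <;> interval_cases G <;> omega

lemma floorU_int (q N k : ℤ) (hq : 0 < q) :
    (2 * N) / q + (N - k) / q + (N - k - 1) / q + (N - 2 * k) / q + (3 * k) / q ≤
      (3 * N) / q + (2 * (N - k) - 1) / q + k / q := by
  have hN := Int.mul_ediv_add_emod N q
  have hk := Int.mul_ediv_add_emod k q
  have hr0 := Int.emod_nonneg N hq.ne'
  have hr := Int.emod_lt_of_pos N hq
  have hs0 := Int.emod_nonneg k hq.ne'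
  have hs := Int.emod_lt_of_pos k hq
  set a := N / q
  set b := k / q
  set r := N % q
  set s := k % q
  have h := floorU_aux q r s hr0 hr hs0 hs
  have e1 : (2 * N) / q = 2 * a + (2 * r) / q := by
    rw [← ediv_shift q (2 * a) (2 * r) hq]; congr 1; rw [← hN]; ring
  have e2 : (N - k) / q = (a - b) + (r - s) / q := by
    rw [← ediv_shift q (a - b) (r - s) hq]; congr 1; rw [← hN, ← hk]; ring
  have e3 : (N - k - 1) / q = (a - b) + (r - s - 1) / q := by
    rw [← ediv_shift q (a - b) (r - s - 1) hq]; congr 1; rw [← hN, ← hk]; ring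
  have e4 : (N - 2 * k) / q = (a - 2 * b) + (r - 2 * s) / q := by
    rw [← ediv_shift q (a - 2 * b) (r - 2 * s) hq]; congr 1; rw [← hN, ← hk]; ring
  have e5 : (3 * k) / q = 3 * b + (3 * s) / q := by
    rw [← ediv_shift q (3 * b) (3 * s) hq]; congr 1; rw [← hk]; ring
  have e6 : (3 * N) / q = 3 * a + (3 * r) / q := by
    rw [← ediv_shift q (3 * a) (3 * r) hq]; congr 1; rw [← hN]; ring
  have e7 : (2 * (N - k) - 1) / q = 2 * (a - b) + (2 * (r - s) - 1) / q := by
    rw [← ediv_shift q (2 * (a - b)) (2 * (r - s) - 1) hq]; congr 1; rw [← hN, ← hk]; ring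
  rw [e1, e2, e3, e4, e5, e6, e7]
  linarith

lemma floorV_int (q N j : ℤ) (hq : 0 < q) :
    (2 * N) / q + 2 * ((N - j - 1) / q) + (N - 2 * j - 1) / q + (3 * j + 1) / q ≤
      (3 * N) / q + (2 * (N - j - 1)) / q + j / q := by
  have hN := Int.mul_ediv_add_emod N q
  have hk := Int.mul_ediv_add_emod j q
  have hr0 := Int.emod_nonneg N hq.ne'
  have hr := Int.emod_lt_of_pos N hq
  have hs0 := Int.emod_nonneg j hq.ne'
  have hs := Int.emod_lt_of_pos j hq
  set a := N / q
  set b := j / q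
  set r := N % q
  set s := j % q
  have h := floorV_aux q r s hr0 hr hs0 hs
  have e1 : (2 * N) / q = 2 * a + (2 * r) / q := by
    rw [← ediv_shift q (2 * a) (2 * r) hq]; congr 1; rw [← hN]; ring
  have e3 : (N - j - 1) / q = (a - b) + (r - s - 1) / q := by
    rw [← ediv_shift q (a - b) (r - s - 1) hq]; congr 1; rw [← hN, ← hk]; ring
  have e4 : (N - 2 * j - 1) / q = (a - 2 * b) + (r - 2 * s - 1) / q := by
    rw [← ediv_shift q (a - 2 * b) (r - 2 * s - 1) hq]; congr 1; rw [← hN, ← hk]; ring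
  have e5 : (3 * j + 1) / q = 3 * b + (3 * s + 1) / q := by
    rw [← ediv_shift q (3 * b) (3 * s + 1) hq]; congr 1; rw [← hk]; ring
  have e6 : (3 * N) / q = 3 * a + (3 * r) / q := by
    rw [← ediv_shift q (3 * a) (3 * r) hq]; congr 1; rw [← hN]; ring
  have e7 : (2 * (N - j - 1)) / q = 2 * (a - b) + (2 * (r - s - 1)) / q := by
    rw [← ediv_shift q (2 * (a - b)) (2 * (r - s - 1)) hq]; congr 1; rw [← hN, ← hk]; ring
  rw [e1, e3, e4, e5, e6, e7]
  linarith

/-- natural number version: `N = m + k`, `m ≥ 1`, `2k ≤ N`. -/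
lemma floorU_nat (q m k d : ℕ) (hq : 0 < q) (hm : 1 ≤ m) (hd : m = k + d) :
    (2 * (m + k)) / q + m / q + (m - 1) / q + d / q + (3 * k) / q ≤
      (3 * (m + k)) / q + (2 * m - 1) / q + k / q := by
  have h := floorU_int (q : ℤ) ((m : ℤ) + k) k (by exact_mod_cast hq)
  have e1 : ((m : ℤ) + k - k) = (m : ℤ) := by ring
  have e2 : ((m : ℤ) - 1) = ((m - 1 : ℕ) : ℤ) := by omega
  have e3 : ((m : ℤ) + k - 2 * k) = (d : ℤ) := by omega
  have e4 : (2 * (m : ℤ) - 1) = ((2 * m - 1 : ℕ) : ℤ) := by omega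
  rw [e1, e2, e3, e4] at h
  exact_mod_cast h

/-- natural number version: `N = m + j + 1`, `N - 2j - 1 = d ≥ 0`. -/
lemma floorV_nat (q m j d : ℕ) (hq : 0 < q) (hd : m = j + d) :
    (2 * (m + j + 1)) / q + 2 * (m / q) + d / q + (3 * j + 1) / q ≤
      (3 * (m + j + 1)) / q + (2 * m) / q + j / q := by
  have h := floorV_int (q : ℤ) ((m : ℤ) + j + 1) j (by exact_mod_cast hq)
  have e1 : ((m : ℤ) + j + 1 - j - 1) = (m : ℤ) := by ring
  have e3 : ((m : ℤ) + j + 1 - 2 * j - 1) = (d : ℤ) := by omega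
  rw [e1, e3] at h
  exact_mod_cast h

/-- `m! (m-1)! (2N)! d! (3k)!` divides `(2m-1)! (3N)! k!` where `N = m + k`, `m = k + d`. -/
lemma dvdU (m k d : ℕ) (hm : 1 ≤ m) (hd : m = k + d) :
    m ! * (m - 1)! * (2 * (m + k))! * d ! * (3 * k)! ∣ (2 * m - 1)! * (3 * (m + k))! * k ! := by
  have n1 : ∀ n : ℕ, n ! ≠ 0 := fun n => Nat.factorial_ne_zero n
  rw [← Nat.factorization_prime_le_iff_dvd (by simp [n1]) (by simp [n1])]
  intro p hp
  set b := 3 * (m + k) + 1 + 1 with hb
  have lg : ∀ n : ℕ, n ≤ 3 * (m + k) + 1 → Nat.log p n < b := by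
    intro n hn
    exact lt_of_le_of_lt (Nat.log_le_self p n) (by omega)
  have F : ∀ n : ℕ, n ≤ 3 * (m + k) + 1 → (n !).factorization p = ∑ i ∈ Ico 1 b, n / p ^ i :=
    fun n hn => Nat.factorization_factorial hp (lg n hn)
  rw [Nat.factorization_mul (by simp [n1]) (by simp [n1]),
    Nat.factorization_mul (by simp [n1]) (by simp [n1]),
    Nat.factorization_mul (by simp [n1]) (by simp [n1]),
    Nat.factorization_mul (by simp [n1]) (by simp [n1]),
    Nat.factorization_mul (by simp [n1]) (by simp [n1]),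
    Nat.factorization_mul (by simp [n1]) (by simp [n1])]
  simp only [Finsupp.coe_add, Pi.add_apply]
  rw [F _ (by omega), F _ (by omega), F _ (by omega), F _ (by omega), F _ (by omega),
    F _ (by omega), F _ (by omega), F _ (by omega)]
  simp only [← Finset.sum_add_distrib]
  apply Finset.sum_le_sum
  intro i _
  have h := floorU_nat (p ^ i) m k d (pow_pos hp.pos i) hm hd
  linarith

/-- `m! m! (2N)! d! (3j+1)!` divides `(2m)! (3N)! j!` where `N = m + j + 1`, `m = j + d`. -/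
lemma dvdV (m j d : ℕ) (hd : m = j + d) :
    m ! * m ! * (2 * (m + j + 1))! * d ! * (3 * j + 1)! ∣
      (2 * m)! * (3 * (m + j + 1))! * j ! := by
  have n1 : ∀ n : ℕ, n ! ≠ 0 := fun n => Nat.factorial_ne_zero n
  rw [← Nat.factorization_prime_le_iff_dvd (by simp [n1]) (by simp [n1])]
  intro p hp
  set b := 3 * (m + j + 1) + 1 + 1 with hb
  have lg : ∀ n : ℕ, n ≤ 3 * (m + j + 1) + 1 → Nat.log p n < b := by
    intro n hn
    exact lt_of_le_of_lt (Nat.log_le_self p n) (by omega)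
  have F : ∀ n : ℕ, n ≤ 3 * (m + j + 1) + 1 →
      (n !).factorization p = ∑ i ∈ Ico 1 b, n / p ^ i :=
    fun n hn => Nat.factorization_factorial hp (lg n hn)
  rw [Nat.factorization_mul (by simp [n1]) (by simp [n1]),
    Nat.factorization_mul (by simp [n1]) (by simp [n1]),
    Nat.factorization_mul (by simp [n1]) (by simp [n1]),
    Nat.factorization_mul (by simp [n1]) (by simp [n1]),
    Nat.factorization_mul (by simp [n1]) (by simp [n1]),
    Nat.factorization_mul (by simp [n1]) (by simp [n1])]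
  simp only [Finsupp.coe_add, Pi.add_apply]
  rw [F m (by omega), F _ (by omega), F _ (by omega), F _ (by omega), F _ (by omega),
    F _ (by omega), F _ (by omega)]
  simp only [← Finset.sum_add_distrib]
  apply Finset.sum_le_sum
  intro i _
  have h := floorV_nat (p ^ i) m j d (pow_pos hp.pos i) hd
  linarith

end Pool.Agent.Lib.MP_ccf7f2_nt
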