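import Mathlib

namespace Pool.Agent.Lib.MP_ccf7f2_nt

open Nat Finset

/-- reciprocal factorial, extended by `0` to negative integers -/
noncomputable def ifac (z : ℤ) : ℚ := if 0 ≤ z then 1 / ((z.toNat)! : ℚ) else 0

lemma ifac_neg {z : ℤ} (h : z < 0) : ifac z = 0 := by
  unfold ifac; rw [if_neg (by omega)]

lemma ifac_nat (n : ℕ) : ifac (n : ℤ) = 1 / ((n !) : ℚ) := by
  unfold ifac; rw [if_pos (by omega)]; simp

lemma ifac_rec (z : ℤ) : (z : ℚ) * ifac z = ifac (z - 1) := by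
  rcases lt_trichotomy z 0 with h | h | h
  · rw [ifac_neg h, ifac_neg (by omega)]; ring
  · subst h; rw [ifac_neg (z := 0 - 1) (by norm_num)]; simp
  · obtain ⟨n, rfl⟩ : ∃ n : ℕ, z = (n : ℤ) + 1 := ⟨(z - 1).toNat, by omega⟩
    have e : ((n : ℤ) + 1) = ((n + 1 : ℕ) : ℤ) := by push_cast; ring
    rw [show ((n : ℤ) + 1 - 1) = (n : ℤ) by ring, e, ifac_nat, ifac_nat, Nat.factorial_succ]
    have : ((n !) : ℚ) ≠ 0 := by exact_mod_cast Nat.factorial_ne_zero n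
    push_cast
    field_simp

/-- the terms of the finite formula (index `k = j + 1`) -/
noncomputable def rr (N j : ℕ) : ℚ :=
  27 ^ j * (3 * (N : ℚ) - 12 * (j + 1) + 5) * (Nat.centralBinom (N - (j + 1)) : ℚ) * ((3 * N)! : ℚ) *
    ((j + 1)! : ℚ) * ifac ((N : ℤ) - 2 * (j + 1) + 1) / (((N !) : ℚ) ^ 2 * ((3 * (j + 1))! : ℚ))

noncomputable def ph (N k : ℕ) : ℚ :=
  (15 * (N : ℚ) - 6 * k + 4) * (Nat.centralBinom (N - k) : ℚ) * ((3 * N)! : ℚ) *
    ifac ((N : ℤ) - 2 * k) * 27 ^ k * ((k !) : ℚ) / (((N !) : ℚ) ^ 2 * ((3 * k)! : ℚ))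

lemma wz_main (m j : ℕ) :
    (((m + j + 1 : ℕ) : ℚ) + 1) * rr (m + j + 1 + 1) j + 27 * ((m + j + 1 : ℕ) : ℚ) * rr (m + j + 1) j
      = ph (m + j + 1) (j + 1) - ph (m + j + 1) j := by
  unfold rr ph
  have s1 : m + j + 1 + 1 - (j + 1) = m + 1 := by omega
  have s2 : m + j + 1 - (j + 1) = m := by omega
  have s3 : m + j + 1 - j = m + 1 := by omega
  rw [s1, s2, s3]
  have cb : (Nat.centralBinom (m + 1) : ℚ) = 2 * (2 * m + 1) / (m + 1) * Nat.centralBinom m := by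
    have h := Nat.succ_mul_centralBinom_succ m
    have h' : ((m : ℚ) + 1) * Nat.centralBinom (m + 1) = 2 * (2 * m + 1) * Nat.centralBinom m := by
      exact_mod_cast h
    have hm : ((m : ℚ) + 1) ≠ 0 := by positivity
    field_simp
    linarith
  rw [cb]
  have i0 : ((((m + j + 1 + 1 : ℕ) : ℤ)) - 2 * (j + 1) + 1) = (m : ℤ) - j + 1 := by
    push_cast; ring
  have i1 : ((((m + j + 1 : ℕ) : ℤ)) - 2 * (j + 1) + 1) = ((m : ℤ) - j + 1) - 1 := by
    push_cast; ring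
  have i2 : ((((m + j + 1 : ℕ) : ℤ)) - 2 * ((j + 1 : ℕ) : ℤ)) = ((m : ℤ) - j + 1) - 1 - 1 := by
    push_cast; ring
  have i3 : ((((m + j + 1 : ℕ) : ℤ)) - 2 * (j : ℤ)) = (m : ℤ) - j + 1 := by
    push_cast; ring
  rw [i0, i1, i2, i3]
  rw [← ifac_rec ((m : ℤ) - j + 1 - 1), ← ifac_rec ((m : ℤ) - j + 1)]
  set I := ifac ((m : ℤ) - j + 1)
  have f1 : ((3 * (m + j + 1 + 1))! : ℚ) =
      (3 * ((m : ℚ) + j + 1) + 3) * (3 * (m + j + 1) + 2) * (3 * (m + j + 1) + 1) *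
        ((3 * (m + j + 1))! : ℚ) := by
    have : 3 * (m + j + 1 + 1) = 3 * (m + j + 1) + 1 + 1 + 1 := by ring
    rw [this, Nat.factorial_succ, Nat.factorial_succ, Nat.factorial_succ]
    push_cast; ring
  have f2 : ((3 * (j + 1))! : ℚ) = (3 * (j : ℚ) + 3) * (3 * j + 2) * (3 * j + 1) * ((3 * j)! : ℚ) := by
    have : 3 * (j + 1) = 3 * j + 1 + 1 + 1 := by ring
    rw [this, Nat.factorial_succ, Nat.factorial_succ, Nat.factorial_succ]
    push_cast; ring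
  have f3 : ((m + j + 1 + 1)! : ℚ) = ((m : ℚ) + j + 1 + 1) * ((m + j + 1)! : ℚ) := by
    rw [Nat.factorial_succ]; push_cast; ring
  have f4 : ((j + 1)! : ℚ) = ((j : ℚ) + 1) * ((j !) : ℚ) := by
    rw [Nat.factorial_succ]; push_cast; ring
  rw [f1, f2, f3, f4]
  have g1 : ((3 * j)! : ℚ) ≠ 0 := by exact_mod_cast Nat.factorial_ne_zero _
  have g2 : ((m + j + 1)! : ℚ) ≠ 0 := by exact_mod_cast Nat.factorial_ne_zero _
  have g3 : ((j : ℚ) + 1) ≠ 0 := by positivity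
  have g4 : (3 * (j : ℚ) + 3) ≠ 0 := by positivity
  have g5 : (3 * (j : ℚ) + 2) ≠ 0 := by positivity
  have g6 : (3 * (j : ℚ) + 1) ≠ 0 := by positivity
  have g7 : ((m : ℚ) + 1) ≠ 0 := by positivity
  have g8 : ((m : ℚ) + j + 1 + 1) ≠ 0 := by positivity
  push_cast
  field_simp
  ring

lemma wz (N j : ℕ) (hj : j ≤ N) :
    ((N : ℚ) + 1) * rr (N + 1) j + 27 * (N : ℚ) * rr N j = ph N (j + 1) - ph N j := by
  rcases Nat.lt_or_ge j N with h | h
  · obtain ⟨m, rfl⟩ : ∃ m, N = m + j + 1 := ⟨N - j - 1, by omega⟩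
    exact wz_main m j
  · have : j = N := by omega
    subst this
    rcases Nat.eq_zero_or_pos j with rfl | hp
    · unfold rr ph
      rw [show (((0 : ℕ) : ℤ) - 2 * ((0 + 1 : ℕ) : ℤ)) = -2 by norm_num]
      rw [ifac_neg (z := -2) (by norm_num)]
      simp [ifac, Nat.factorial]
      norm_num
    · unfold rr ph
      rw [ifac_neg (z := (((j + 1 : ℕ) : ℤ)) - 2 * (j + 1) + 1) (by push_cast; omega),
        ifac_neg (z := (j : ℤ) - 2 * (j + 1) + 1) (by omega),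
        ifac_neg (z := (j : ℤ) - 2 * ((j + 1 : ℕ) : ℤ)) (by push_cast; omega),
        ifac_neg (z := (j : ℤ) - 2 * (j : ℤ)) (by omega)]
      simp

lemma rr_self (N : ℕ) : rr N N = 0 := by
  unfold rr
  rw [ifac_neg (z := (N : ℤ) - 2 * (N + 1) + 1) (by omega)]
  simp

lemma ph_top (N : ℕ) : ph N (N + 1) = 0 := by
  unfold ph
  rw [ifac_neg (z := (N : ℤ) - 2 * ((N + 1 : ℕ) : ℤ)) (by push_cast; omega)]
  simp

noncomputable def RR (N : ℕ) : ℚ := ∑ j ∈ range N, rr N j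

lemma RR_rec (N : ℕ) : ((N : ℚ) + 1) * RR (N + 1) + 27 * (N : ℚ) * RR N = - ph N 0 := by
  have h1 : RR N = ∑ j ∈ range (N + 1), rr N j := by
    unfold RR; rw [Finset.sum_range_succ, rr_self, add_zero]
  rw [h1]
  unfold RR
  rw [Finset.mul_sum, Finset.mul_sum, ← Finset.sum_add_distrib]
  rw [Finset.sum_congr rfl (fun j hj => wz N j (by have := Finset.mem_range.mp hj; omega))]
  rw [Finset.sum_range_sub (fun j => ph N j), ph_top]
  ring

lemma ph_zero (N : ℕ) : ph N 0 =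
    (15 * (N : ℚ) + 4) * (Nat.centralBinom N : ℚ) ^ 2 * (Nat.choose (3 * N) N : ℚ) := by
  unfold ph
  rw [show ((N : ℤ) - 2 * ((0 : ℕ) : ℤ)) = (N : ℤ) by simp, ifac_nat]
  have h1 : ((3 * N)! : ℚ) = (Nat.choose (3 * N) N : ℚ) * (N ! : ℚ) * ((2 * N)! : ℚ) := by
    have := Nat.choose_mul_factorial_mul_factorial (show N ≤ 3 * N by omega)
    rw [show 3 * N - N = 2 * N by omega] at this
    exact_mod_cast this.symm
  have h2 : ((2 * N)! : ℚ) = (Nat.centralBinom N : ℚ) * (N ! : ℚ) * (N ! : ℚ) := by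
    have := Nat.choose_mul_factorial_mul_factorial (show N ≤ 2 * N by omega)
    rw [show 2 * N - N = N by omega] at this
    rw [Nat.centralBinom_eq_two_mul_choose]
    exact_mod_cast this.symm
  rw [h1, h2]
  have g : ((N !) : ℚ) ≠ 0 := by exact_mod_cast Nat.factorial_ne_zero _
  simp
  field_simp

/-- the sums of the problem -/
def TT (n : ℕ) : ℤ :=
  ∑ j ∈ range n, (-27) ^ (n - 1 - j) * (15 * (j : ℤ) + 4) * (Nat.choose (2 * j) j : ℤ) ^ 2 *
    (Nat.choose (3 * j) j : ℤ)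

lemma TT_succ (n : ℕ) : TT (n + 1) = -27 * TT n + (15 * (n : ℤ) + 4) *
    (Nat.choose (2 * n) n : ℤ) ^ 2 * (Nat.choose (3 * n) n : ℤ) := by
  unfold TT
  rw [Finset.sum_range_succ, Finset.mul_sum]
  congr 1
  · apply Finset.sum_congr rfl
    intro j hj
    have hj' := Finset.mem_range.mp hj
    rw [show n + 1 - 1 - j = (n - 1 - j) + 1 by omega, pow_succ]
    ring
  · rw [show n + 1 - 1 - n = 0 by omega]; ring

lemma TT_eq (N : ℕ) : (TT N : ℚ) = - (N : ℚ) * RR N := by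
  induction N with
  | zero => simp [TT, RR]
  | succ n ih =>
    rw [TT_succ]
    have h := RR_rec n
    rw [ph_zero, Nat.centralBinom_eq_two_mul_choose] at h
    push_cast
    rw [ih]
    linarith

end Pool.Agent.Lib.MP_ccf7f2_nt
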