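import Mathlib
import Pool.Agent.Lib.MP_ccf7f2_nt.Floor
import Pool.Agent.Lib.MP_ccf7f2_nt.Ident

namespace Pool.Agent.Lib.MP_ccf7f2_nt

open Nat Finset

/-- product of `(3i+1)(3i+2)` for `i < k` : the prime-to-3 part of `(3k)!/k!`. -/
def ww (k : ℕ) : ℕ := ∏ i ∈ range k, ((3 * i + 1) * (3 * i + 2))

lemma fact_three_mul (k : ℕ) : (3 * k)! = 3 ^ k * k ! * ww k := by
  induction k with
  | zero => simp [ww]
  | succ k ih =>
    have : 3 * (k + 1) = 3 * k + 1 + 1 + 1 := by ring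
    rw [this, Nat.factorial_succ, Nat.factorial_succ, Nat.factorial_succ, ih, ww, ww,
      Finset.prod_range_succ, Nat.factorial_succ]
    ring

lemma ww_not_dvd (k : ℕ) : ¬ 3 ∣ ww k := by
  unfold ww
  rw [Prime.dvd_finsetProd_iff (Nat.prime_iff.mp Nat.prime_three)]
  push Not
  intro i _ h
  rcases (Nat.Prime.dvd_mul Nat.prime_three).mp h with h | h <;> omega

/-- `A(N) = (3N)!/(N!(2N+1)!)`, the ternary Catalan number -/
def AA (N : ℕ) : ℕ := Nat.choose (3 * N) N / (2 * N + 1)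

lemma AA_dvd (N : ℕ) : (2 * N + 1) ∣ Nat.choose (3 * N) N := by
  rcases Nat.eq_zero_or_pos N with rfl | hN
  · simp
  · obtain ⟨n, rfl⟩ : ∃ n, N = n + 1 := ⟨N - 1, by omega⟩
    have h := Nat.choose_succ_right_eq (3 * (n + 1)) n
    have h2 : 3 * (n + 1) - n = 2 * n + 3 := by omega
    rw [h2] at h
    set a := Nat.choose (3 * (n + 1)) (n + 1)
    set b := Nat.choose (3 * (n + 1)) n
    -- a (n+1) = b (2n+3)
    have hco : Nat.Coprime (2 * (n + 1) + 1) (n + 1) := by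
      have : 2 * (n + 1) + 1 = (n + 1) * 2 + 1 := by ring
      rw [this]
      simp
    apply hco.dvd_of_dvd_mul_right
    exact ⟨b, by rw [h]; ring⟩

lemma AA_spec (N : ℕ) : (2 * N + 1) * AA N = Nat.choose (3 * N) N :=
  Nat.mul_div_cancel' (AA_dvd N)

lemma fact_three (N : ℕ) : (3 * N)! = AA N * N ! * (2 * N + 1)! := by
  have h := Nat.choose_mul_factorial_mul_factorial (show N ≤ 3 * N by omega)
  rw [show 3 * N - N = 2 * N by omega] at h
  rw [← h, ← AA_spec, Nat.factorial_succ]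
  ring

/-- first family of integers -/
def uu (N j : ℕ) : ℕ :=
  if 2 * (j + 1) ≤ N then
    ((2 * (N - (j + 1)) - 1)! * (3 * N)! * (j + 1)!) /
      ((N - (j + 1))! * (N - (j + 1) - 1)! * (2 * N)! * (N - 2 * (j + 1))! * (3 * (j + 1))!)
  else 0

/-- second family of integers -/
def vv (N j : ℕ) : ℕ :=
  if 2 * j + 1 ≤ N then
    ((2 * (N - (j + 1)))! * (3 * N)! * j !) /
      ((N - (j + 1))! * (N - (j + 1))! * (2 * N)! * (N - (2 * j + 1))! * (3 * j + 1)!)
  else 0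

lemma uu_spec (m j d : ℕ) (hd : m = j + 1 + d) :
    uu (m + (j + 1)) j * (m ! * (m - 1)! * (2 * (m + (j + 1)))! * d ! * (3 * (j + 1))!) =
      (2 * m - 1)! * (3 * (m + (j + 1)))! * (j + 1)! := by
  unfold uu
  rw [if_pos (by omega), show m + (j + 1) - (j + 1) = m by omega,
    show m + (j + 1) - 2 * (j + 1) = d by omega]
  exact Nat.div_mul_cancel (dvdU m (j + 1) d (by omega) hd)

lemma vv_spec (m j d : ℕ) (hd : m = j + d) :
    vv (m + j + 1) j * (m ! * m ! * (2 * (m + j + 1))! * d ! * (3 * j + 1)!) =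
      (2 * m)! * (3 * (m + j + 1))! * j ! := by
  unfold vv
  rw [if_pos (by omega), show m + j + 1 - (j + 1) = m by omega,
    show m + j + 1 - (2 * j + 1) = d by omega]
  exact Nat.div_mul_cancel (dvdV m j d hd)

/-- `r(N,j) = 2·27^j·cb(N)·(3u - v/3)` -/
lemma rr_eq (N j : ℕ) (hj : j < N) :
    rr N j = 2 * 27 ^ j * (Nat.centralBinom N : ℚ) * (3 * (uu N j : ℚ) - (vv N j : ℚ) / 3) := by
  have fn : ∀ n : ℕ, ((n !) : ℚ) ≠ 0 := fun n => by exact_mod_cast Nat.factorial_ne_zero n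
  have hcb : ∀ n : ℕ, (Nat.centralBinom n : ℚ) = ((2 * n)! : ℚ) / ((n ! : ℚ) * (n ! : ℚ)) := by
    intro n
    have := Nat.choose_mul_factorial_mul_factorial (show n ≤ 2 * n by omega)
    rw [show 2 * n - n = n by omega] at this
    rw [Nat.centralBinom_eq_two_mul_choose]
    have h : ((Nat.choose (2 * n) n : ℕ) : ℚ) * (n ! : ℚ) * (n ! : ℚ) = ((2 * n)! : ℚ) := by
      exact_mod_cast this
    rw [← h]
    field_simp
  have f2 : ((3 * (j + 1))! : ℚ) = (3 * (j : ℚ) + 3) * (3 * j + 2) * ((3 * j + 1)! : ℚ) := by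
    have : 3 * (j + 1) = 3 * j + 1 + 1 + 1 := by ring
    rw [this, Nat.factorial_succ, Nat.factorial_succ]
    push_cast; ring
  have f4 : ((j + 1)! : ℚ) = ((j : ℚ) + 1) * ((j !) : ℚ) := by
    rw [Nat.factorial_succ]; push_cast; ring
  obtain ⟨m, rfl⟩ : ∃ m, N = m + j + 1 := ⟨N - j - 1, by omega⟩
  unfold rr
  rw [show m + j + 1 - (j + 1) = m by omega]
  rcases Nat.lt_or_ge m j with hlt | hge
  · -- everything vanishes
    have u0 : uu (m + j + 1) j = 0 := by unfold uu; rw [if_neg (by omega)]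
    have v0 : vv (m + j + 1) j = 0 := by unfold vv; rw [if_neg (by omega)]
    rw [u0, v0, ifac_neg (z := ((m + j + 1 : ℕ) : ℤ) - 2 * (j + 1) + 1) (by push_cast; omega)]
    simp
  · obtain ⟨d, hd⟩ : ∃ d, m = j + d := ⟨m - j, by omega⟩
    have hv := vv_spec m j d hd
    have hv' : (vv (m + j + 1) j : ℚ) * ((m ! : ℚ) * (m ! : ℚ) * ((2 * (m + j + 1))! : ℚ) *
        (d ! : ℚ) * ((3 * j + 1)! : ℚ)) = ((2 * m)! : ℚ) * ((3 * (m + j + 1))! : ℚ) * (j ! : ℚ) := by
      exact_mod_cast hv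
    have i1 : (((m + j + 1 : ℕ) : ℤ) - 2 * (j + 1) + 1) = (d : ℤ) := by push_cast; omega
    rw [i1, ifac_nat]
    rcases Nat.eq_zero_or_pos d with hd0 | hd1
    · have u0 : uu (m + j + 1) j = 0 := by unfold uu; rw [if_neg (by omega)]
      rw [u0]
      have hv2 : (vv (m + j + 1) j : ℚ) = ((2 * m)! : ℚ) * ((3 * (m + j + 1))! : ℚ) * (j ! : ℚ) /
          ((m ! : ℚ) * (m ! : ℚ) * ((2 * (m + j + 1))! : ℚ) *
            (d ! : ℚ) * ((3 * j + 1)! : ℚ)) := by
        rw [eq_div_iff (by simp [fn])]; exact hv'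
      rw [hv2, hcb m, hcb (m + j + 1), f2, f4]
      subst hd0
      have hmj : (m : ℚ) = j := by exact_mod_cast (by omega : m = j)
      have a1 := fn m
      have a2 := fn (m + j + 1)
      have a3 := fn (2 * (m + j + 1))
      have a4 := fn (3 * j + 1)
      have g3 : ((j : ℚ) + 1) ≠ 0 := by positivity
      have g4 : (3 * (j : ℚ) + 3) ≠ 0 := by positivity
      have g5 : (3 * (j : ℚ) + 2) ≠ 0 := by positivity
      push_cast
      rw [hmj]
      field_simp
      ring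
    · obtain ⟨e, rfl⟩ : ∃ e, d = e + 1 := ⟨d - 1, by omega⟩
      have hu := uu_spec m j e (by omega)
      have hu' : (uu (m + (j + 1)) j : ℚ) * ((m ! : ℚ) * ((m - 1)! : ℚ) *
          ((2 * (m + (j + 1)))! : ℚ) * (e ! : ℚ) * ((3 * (j + 1))! : ℚ)) =
          ((2 * m - 1)! : ℚ) * ((3 * (m + (j + 1)))! : ℚ) * ((j + 1)! : ℚ) := by
        exact_mod_cast hu
      rw [show m + (j + 1) = m + j + 1 by ring] at hu'
      have hu2 : (uu (m + j + 1) j : ℚ) = ((2 * m - 1)! : ℚ) * ((3 * (m + j + 1))! : ℚ) *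
          ((j + 1)! : ℚ) / ((m ! : ℚ) * ((m - 1)! : ℚ) *
          ((2 * (m + j + 1))! : ℚ) * (e ! : ℚ) * ((3 * (j + 1))! : ℚ)) := by
        rw [eq_div_iff (by simp [fn])]; exact hu'
      have hv2 : (vv (m + j + 1) j : ℚ) = ((2 * m)! : ℚ) * ((3 * (m + j + 1))! : ℚ) * (j ! : ℚ) /
          ((m ! : ℚ) * (m ! : ℚ) * ((2 * (m + j + 1))! : ℚ) *
            ((e + 1)! : ℚ) * ((3 * j + 1)! : ℚ)) := by
        rw [eq_div_iff (by simp [fn])]; exact hv'
      obtain ⟨l, hl⟩ : ∃ l, m = l + 1 := ⟨m - 1, by omega⟩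
      have m1 : ((2 * m)! : ℚ) = (2 * (m : ℚ)) * ((2 * m - 1)! : ℚ) := by
        rw [hl, show 2 * (l + 1) = (2 * (l + 1) - 1) + 1 by omega, Nat.factorial_succ,
          show (2 * (l + 1) - 1) + 1 - 1 = 2 * (l + 1) - 1 by omega,
          show 2 * (l + 1) - 1 + 1 = 2 * (l + 1) by omega]
        push_cast; ring
      have m2 : ((m)! : ℚ) = (m : ℚ) * ((m - 1)! : ℚ) := by
        rw [hl, Nat.factorial_succ, show l + 1 - 1 = l by omega]; push_cast; ring
      have e1 : ((e + 1)! : ℚ) = ((e : ℚ) + 1) * (e ! : ℚ) := by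
        rw [Nat.factorial_succ]; push_cast; ring
      rw [hu2, hv2, hcb m, hcb (m + j + 1), f2, f4, m1, m2, e1]
      have hmj : (m : ℚ) = j + e + 1 := by exact_mod_cast (by omega : m = j + e + 1)
      have a1 := fn (m - 1)
      have a2 := fn (m + j + 1)
      have a3 := fn (2 * (m + j + 1))
      have a4 := fn (3 * j + 1)
      have a5 := fn e
      have g2 : ((j : ℚ) + e + 1) ≠ 0 := by positivity
      have g3 : ((j : ℚ) + 1) ≠ 0 := by positivity
      have g4 : (3 * (j : ℚ) + 3) ≠ 0 := by positivity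
      have g5 : (3 * (j : ℚ) + 2) ≠ 0 := by positivity
      have g6 : ((e : ℚ) + 1) ≠ 0 := by positivity
      push_cast
      rw [hmj]
      field_simp
      ring

end Pool.Agent.Lib.MP_ccf7f2_nt
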