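import Mathlib
import Pool.Agent.Lib.MP_ccf7f2_nt.Terms

namespace Pool.Agent.Lib.MP_ccf7f2_nt

open Nat Finset

lemma pv3_mul (n : ℕ) : padicValNat 3 ((3 * n)!) = padicValNat 3 (n !) + n := by
  have : Fact (Nat.Prime 3) := ⟨Nat.prime_three⟩
  exact padicValNat_factorial_mul n

lemma pv3_add (q r : ℕ) (hr : r < 3) :
    padicValNat 3 ((3 * q + r)!) = padicValNat 3 (q !) + q := by
  have : Fact (Nat.Prime 3) := ⟨Nat.prime_three⟩
  rw [padicValNat_factorial_mul_add q hr, padicValNat_factorial_mul]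

lemma g3 : ∀ n : ℕ, 1 ≤ n → (2 * padicValNat 3 (n !) + 1 ≤ n ∧
    (2 * padicValNat 3 (n !) + 1 = n ↔ ∃ m, n = 3 ^ m)) := by
  intro n
  induction n using Nat.strong_induction_on with
  | _ n ih =>
    intro hn
    obtain ⟨q, r, hr, rfl⟩ : ∃ q r, r < 3 ∧ n = 3 * q + r :=
      ⟨n / 3, n % 3, Nat.mod_lt _ (by norm_num), by omega⟩
    rw [pv3_add q r hr]
    rcases Nat.eq_zero_or_pos q with rfl | hq
    · simp only [Nat.factorial_zero, padicValNat_one_right, mul_zero, zero_add]
      refine ⟨by omega, ?_⟩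
      constructor
      · intro h; exact ⟨0, by omega⟩
      · rintro ⟨m, hm⟩
        rcases Nat.eq_zero_or_pos m with rfl | hm0
        · simpa using hm.symm
        · exfalso
          have : 3 ^ 1 ≤ 3 ^ m := Nat.pow_le_pow_right (by norm_num) hm0
          omega
    · obtain ⟨h1, h2⟩ := ih q (by omega) hq
      refine ⟨by omega, ?_⟩
      constructor
      · intro h
        have hr0 : r = 0 := by omega
        have : 2 * padicValNat 3 (q !) + 1 = q := by omega
        obtain ⟨m, hm⟩ := h2.mp this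
        exact ⟨m + 1, by rw [pow_succ]; omega⟩
      · rintro ⟨m, hm⟩
        rcases Nat.eq_zero_or_pos m with rfl | hm0
        · exfalso; simp at hm; omega
        · obtain ⟨l, rfl⟩ : ∃ l, m = l + 1 := ⟨m - 1, by omega⟩
          rw [pow_succ] at hm
          have hr0 : r = 0 := by omega
          have hq' : q = 3 ^ l := by omega
          have := h2.mpr ⟨l, hq'⟩
          omega

lemma AA_pos (N : ℕ) : 0 < AA N := by
  have h := AA_spec N
  have h2 : 0 < Nat.choose (3 * N) N := Nat.choose_pos (by omega)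
  by_contra hcon
  have : AA N = 0 := by omega
  rw [this] at h
  omega

lemma pv3_AA (N : ℕ) : padicValNat 3 (AA N) + padicValNat 3 ((2 * N + 1)!) = N := by
  have : Fact (Nat.Prime 3) := ⟨Nat.prime_three⟩
  have h := fact_three N
  have h1 : padicValNat 3 ((3 * N)!) =
      padicValNat 3 (AA N) + padicValNat 3 (N !) + padicValNat 3 ((2 * N + 1)!) := by
    rw [h, padicValNat.mul (by have := AA_pos N; have := Nat.factorial_pos N; positivity)
      (Nat.factorial_ne_zero _), padicValNat.mul (by have := AA_pos N; omega)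
      (Nat.factorial_ne_zero _)]
  rw [pv3_mul] at h1
  omega

lemma three_dvd_AA (N : ℕ) (h : ¬ ∃ m, 2 * N + 1 = 3 ^ m) : 3 ∣ AA N := by
  have : Fact (Nat.Prime 3) := ⟨Nat.prime_three⟩
  have h1 := pv3_AA N
  obtain ⟨h2, h3⟩ := g3 (2 * N + 1) (by omega)
  have h4 : 2 * padicValNat 3 ((2 * N + 1)!) + 1 ≠ 2 * N + 1 := fun hh => h (h3.mp hh)
  apply dvd_of_one_le_padicValNat
  omega

lemma not_three_dvd_AA (N : ℕ) (h : ∃ m, 2 * N + 1 = 3 ^ m) : ¬ 3 ∣ AA N := by
  have : Fact (Nat.Prime 3) := ⟨Nat.prime_three⟩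
  have h1 := pv3_AA N
  obtain ⟨h2, h3⟩ := g3 (2 * N + 1) (by omega)
  have h4 := h3.mpr h
  intro hd
  have := one_le_padicValNat_of_dvd (by have := AA_pos N; omega) hd
  omega

/-- `n_j = (3^j-1)/2` -/
def nn : ℕ → ℕ
  | 0 => 0
  | j + 1 => 3 * nn j + 1

lemma nn_spec (j : ℕ) : 2 * nn j + 1 = 3 ^ j := by
  induction j with
  | zero => rfl
  | succ j ih => rw [pow_succ, ← ih, nn]; ring

lemma choose_nn (j : ℕ) : ¬ 3 ∣ Nat.choose (2 * nn j) (nn j) := by
  have : Fact (Nat.Prime 3) := ⟨Nat.prime_three⟩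
  induction j with
  | zero => simp [nn]
  | succ j ih =>
    have h := @Choose.choose_modEq_choose_mod_mul_choose_div_nat (2 * nn (j + 1)) (nn (j + 1)) 3 _
    have e1 : 2 * nn (j + 1) % 3 = 2 := by simp only [nn]; omega
    have e2 : nn (j + 1) % 3 = 1 := by simp only [nn]; omega
    have e3 : 2 * nn (j + 1) / 3 = 2 * nn j := by simp only [nn]; omega
    have e4 : nn (j + 1) / 3 = nn j := by simp only [nn]; omega
    rw [e1, e2, e3, e4] at h
    intro hd
    have h2 : 3 ∣ Nat.choose 2 1 * Nat.choose (2 * nn j) (nn j) :=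
      (Nat.modEq_zero_iff_dvd).mp (h.symm.trans ((Nat.modEq_zero_iff_dvd).mpr hd))
    rcases (Nat.Prime.dvd_mul Nat.prime_three).mp h2 with h3 | h3
    · revert h3; decide
    · exact ih h3

lemma choose_three_nn (j : ℕ) : ¬ 3 ∣ Nat.choose (2 * (3 * nn j)) (3 * nn j) := by
  have : Fact (Nat.Prime 3) := ⟨Nat.prime_three⟩
  have h := @Choose.choose_modEq_choose_mod_mul_choose_div_nat (2 * (3 * nn j)) (3 * nn j) 3 _
  have e1 : 2 * (3 * nn j) % 3 = 0 := by omega
  have e2 : (3 * nn j) % 3 = 0 := by omega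
  have e3 : 2 * (3 * nn j) / 3 = 2 * nn j := by omega
  have e4 : (3 * nn j) / 3 = nn j := by omega
  rw [e1, e2, e3, e4] at h
  intro hd
  have h2 : 3 ∣ Nat.choose 0 0 * Nat.choose (2 * nn j) (nn j) :=
    (Nat.modEq_zero_iff_dvd).mp (h.symm.trans ((Nat.modEq_zero_iff_dvd).mpr hd))
  rcases (Nat.Prime.dvd_mul Nat.prime_three).mp h2 with h3 | h3
  · revert h3; decide
  · exact choose_nn j h3

/-- key divisibility of the first family -/
lemma uu_key (m j d : ℕ) (hd : m = j + 1 + d) :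
    uu (m + (j + 1)) j * (3 ^ (j + 1) * ww (j + 1)) =
      (2 * (m + (j + 1)) + 1) *
        (Nat.choose (2 * m - 1) m * Nat.choose (m + (j + 1)) d * (2 * (j + 1))! *
          AA (m + (j + 1))) := by
  have h := uu_spec m j d hd
  have h1 := fact_three (m + (j + 1))
  have h2 := fact_three_mul (j + 1)
  have h3 := Nat.choose_mul_factorial_mul_factorial (show m ≤ 2 * m - 1 by omega)
  rw [show 2 * m - 1 - m = m - 1 by omega] at h3
  have h4 := Nat.choose_mul_factorial_mul_factorial (show d ≤ m + (j + 1) by omega)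
  rw [show m + (j + 1) - d = 2 * (j + 1) by omega] at h4
  have h5 : (2 * (m + (j + 1)) + 1)! = (2 * (m + (j + 1)) + 1) * (2 * (m + (j + 1)))! :=
    Nat.factorial_succ _
  rw [h1, h5, h2, ← h3, ← h4] at h
  have p : 0 < m ! * (m - 1)! * (2 * (m + (j + 1)))! * d ! * (j + 1)! := by positivity
  apply Nat.eq_of_mul_eq_mul_left p
  calc m ! * (m - 1)! * (2 * (m + (j + 1)))! * d ! * (j + 1)! *
        (uu (m + (j + 1)) j * (3 ^ (j + 1) * ww (j + 1)))
      = uu (m + (j + 1)) j * (m ! * (m - 1)! * (2 * (m + (j + 1)))! * d ! *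
          (3 ^ (j + 1) * (j + 1)! * ww (j + 1))) := by ring
    _ = _ := by rw [h]; ring

/-- key divisibility of the second family -/
lemma vv_key (m j d : ℕ) (hd : m = j + d) :
    vv (m + j + 1) j * ((3 * j + 1) * 3 ^ j * ww j) =
      (2 * (m + j + 1) + 1) *
        (Nat.choose (2 * m) m * Nat.choose (m + j + 1) d * (2 * j + 1)! * AA (m + j + 1)) := by
  have h := vv_spec m j d hd
  have h1 := fact_three (m + j + 1)
  have h2 : (3 * j + 1)! = (3 * j + 1) * (3 ^ j * j ! * ww j) := by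
    rw [Nat.factorial_succ, fact_three_mul]
  have h3 := Nat.choose_mul_factorial_mul_factorial (show m ≤ 2 * m by omega)
  rw [show 2 * m - m = m by omega] at h3
  have h4 := Nat.choose_mul_factorial_mul_factorial (show d ≤ m + j + 1 by omega)
  rw [show m + j + 1 - d = 2 * j + 1 by omega] at h4
  have h5 : (2 * (m + j + 1) + 1)! = (2 * (m + j + 1) + 1) * (2 * (m + j + 1))! :=
    Nat.factorial_succ _
  rw [h1, h5, h2, ← h3, ← h4] at h
  have p : 0 < m ! * m ! * (2 * (m + j + 1))! * d ! * j ! := by positivity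
  apply Nat.eq_of_mul_eq_mul_left p
  calc m ! * m ! * (2 * (m + j + 1))! * d ! * j ! *
        (vv (m + j + 1) j * ((3 * j + 1) * 3 ^ j * ww j))
      = vv (m + j + 1) j * (m ! * m ! * (2 * (m + j + 1))! * d ! *
          ((3 * j + 1) * (3 ^ j * j ! * ww j))) := by ring
    _ = _ := by rw [h]; ring

lemma vv_zero (m : ℕ) : vv (m + 1) 0 =
    (2 * (m + 1) + 1) * AA (m + 1) * ((m + 1) * Nat.choose (2 * m) m) := by
  have h := vv_key m 0 m (by omega)
  simp only [mul_zero, zero_add, pow_zero, mul_one, add_zero, ww, Finset.range_zero,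
    Finset.prod_empty, Nat.factorial_one] at h
  rw [h, Nat.choose_succ_self_right]
  ring

end Pool.Agent.Lib.MP_ccf7f2_nt
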